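import Pool.Agent.Q96.SP.HY

set_option autoImplicit false

/-!
# The Havet-Yu conjecture for graphs without a fixed subgraph

For a fixed finite graph `F` the bound `D + 2 p - 1` of Havet and Yu holds for all `F`-free graphs
of large maximum degree at most `D` and all `p` a little larger than one half of the bound for
their chromatic number: `p ≥ (1 / 2 + ε) D / log D` if `F` is almost bipartite, and
`p ≥ (1 + ε) D / log D` if `F` has treewidth at most two.

By helper109. The definitions are in `Pool.Agent.Q96.SP.HY`.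
-/

namespace Pool.Agent.Results.MP_b8729f_co.ForbiddenSubgraphs

open Filter Pool.Agent.Q96.SP.HY

/-- (1) If `c(F) ≤ C` then the bound of Havet and Yu holds for all `F`-free graphs and
`p ≥ (C / 2 + ε) D / log D`, `D` large.
(2) If `F` is a finite almost bipartite graph, it holds for all `F`-free graphs and
`p ≥ (1 / 2 + ε) D / log D`, `D` large.
(3) If `F` is a finite graph of treewidth at most two, it holds for all `F`-free graphs and
`p ≥ (1 + ε) D / log D`, `D` large. -/
theorem result :
    (∀ (W : Type) (F : SimpleGraph W) (C : ℝ), 0 ≤ C → ColourBound F C →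
      ∀ ε : ℝ, 0 < ε →
        HavetYuAbove (fun _ G => F.Free G) (fun D => (C / 2 + ε) * (D / Real.log D))) ∧
    (∀ (W : Type) [Fintype W] (F : SimpleGraph W), NearBipartite F → ∀ ε : ℝ, 0 < ε →
      HavetYuAbove (fun _ G => F.Free G) (fun D => (1 / 2 + ε) * (D / Real.log D))) ∧
    (∀ (W : Type) [Fintype W] (F : SimpleGraph W), TreewidthAtMostTwo F → ∀ ε : ℝ, 0 < ε →
      HavetYuAbove (fun _ G => F.Free G) (fun D => (1 + ε) * (D / Real.log D))) := by
  classical
  refine ⟨?_, ?_, ?_⟩
  · intro W F C hC hF ε hε
    exact free_of_upTo F C hC (upTo F C hF) ε hε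
  · intro W _ F hF ε hε
    refine free_of_upTo F 1 zero_le_one ?_ ε hε
    refine Pool.Agent.TH855.upTo_of_c_le F 1 zero_le_one ?_
    rw [ENNReal.ofReal_one]
    exact Pool.Agent.Y388.CF.c_almost_bipartite F hF
  · intro W _ F hF ε hε
    have h := free_of_upTo F 2 (by norm_num) (Pool.Agent.TH855.upTo_of_c_le F 2 (by norm_num) (by
      have h1 := Pool.Agent.TH855.treewidth_bound F 2 (by omega) hF
      refine h1.trans ?_
      calc ((2 : ℕ) : ENNReal) * Pool.Agent.TH855.c (⊤ : SimpleGraph (Fin (2 + 1)))
          ≤ (2 : ℕ) * 1 := mul_le_mul_right Pool.Agent.TH855.c_triangle_le_one _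
        _ = ENNReal.ofReal 2 := by norm_num)) ε hε
    have e : ((2 : ℝ) / 2 + ε) = 1 + ε := by norm_num
    rw [e] at h
    exact h

end Pool.Agent.Results.MP_b8729f_co.ForbiddenSubgraphs
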