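import Pool.Agent.Q96.SP.HY

set_option autoImplicit false

/-!
# The Havet-Yu conjecture for hereditary classes of graphs

Let `f (D)` be a bound for the chromatic numbers of the graphs of maximum degree at most `D` in a
class of graphs closed under induced subgraphs. Then the bound `D + 2 p - 1` of Havet and Yu holds
for all graphs of large maximum degree at most `D` in the class and all `p` a little larger than
`f (D) / 2`.

Proof. The vertices are distributed at random into `2 m` types (local lemma) such that every vertex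
has at most `w` neighbours in every type, `w` close to `D / (2 m)`; the graph inside a type belongs
to the class, so it has a colouring with about `f (w)` colours. The types of one half get the
smallest labels, those of the other half the largest labels, and the edges between two given types
get labels in an interval of length `w + 1` (Vizing); these intervals are placed by the modified
Latin square of the starting file `TH104.HY.C`.

By helper109. The definitions are in `Pool.Agent.Q96.SP.HY`.
-/

namespace Pool.Agent.Results.MP_b8729f_co.HereditaryGraphClasses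

open Filter Pool.Agent.Q96.SP.HY

/-- Let `Φ` be a class of graphs closed under induced subgraphs.
(1) Let `D / log² D ≤ f D ≤ D / 6` for all large `D`, and suppose that for every `ε > 0`, all large
`D` and all `w` with `D / log⁴ D ≤ w ≤ D` every finite graph of `Φ` with degrees at most `w` is
colourable with at most `(1 + ε) (w / D) f D` colours. Then the bound of Havet and Yu holds for `Φ`
and `p ≥ (1/2 + ε) f D`, `D` large.
(2) Let `0 ≤ a < 1` and suppose that for every `ε > 0` and all large `w` every finite graph of `Φ`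
with degrees at most `w` is colourable with at most `(a + ε) w` colours. Then the bound of Havet
and Yu holds for `Φ` and `p ≥ (a / 2 + ε) D`, `D` large. -/
theorem result :
    (∀ (Φ : (V : Type) → SimpleGraph V → Prop) (f : ℕ → ℝ), Hereditary Φ →
      (∀ᶠ D : ℕ in atTop, (D : ℝ) / Real.log D ^ 2 ≤ f D ∧ f D ≤ D / 6) →
      (∀ ε : ℝ, 0 < ε → ∃ D₀ : ℕ, ∀ D w : ℕ, D₀ ≤ D → (D : ℝ) / Real.log D ^ 4 ≤ w → w ≤ D →
        ∀ (V : Type) [Fintype V] (G : SimpleGraph V), Φ V G → DegreesLe G w →
          ∃ k : ℕ, G.Colorable k ∧ (k : ℝ) ≤ (1 + ε) * (w / D) * f D) →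
      ∀ ε : ℝ, 0 < ε → HavetYuAbove Φ (fun D => (1 / 2 + ε) * f D)) ∧
    (∀ (Φ : (V : Type) → SimpleGraph V → Prop) (a : ℝ), Hereditary Φ → 0 ≤ a → a < 1 →
      (∀ ε : ℝ, 0 < ε → ∃ w₀ : ℕ, ∀ w : ℕ, w₀ ≤ w →
        ∀ (V : Type) [Fintype V] (G : SimpleGraph V), Φ V G → DegreesLe G w →
          ∃ k : ℕ, G.Colorable k ∧ (k : ℝ) ≤ (a + ε) * w) →
      ∀ ε : ℝ, 0 < ε → HavetYuAbove Φ (fun D => (a / 2 + ε) * D)) := by
  classical
  refine ⟨?_, ?_⟩
  · intro Φ f hΦ hf hcol ε hε
    obtain ⟨D₀, h1⟩ := Pool.Agent.Q109.HY.class_small Φ hΦ f hf hcol ε hε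
    exact ⟨D₀, fun V _ G D p h2 h3 h4 h5 => h1 V G D p h2 ((deg_iff G D).1 h3) h4 h5⟩
  · intro Φ a hΦ ha0 ha1 hcol ε hε
    obtain ⟨D₀, h1⟩ := Pool.Agent.Q109.HY.class_linear Φ hΦ a ha0 ha1 hcol ε hε
    exact ⟨D₀, fun V _ G D p h2 h3 h4 h5 => h1 V G D p h2 ((deg_iff G D).1 h3) h4 h5⟩

end Pool.Agent.Results.MP_b8729f_co.HereditaryGraphClasses
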