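import Pool.Agent.Y393.RS.All
import Pool.Agent.Q6.HP.Cliques

/-!
# The (p,1)-total labelling number of almost all graphs with a partition into hereditary classes

The `(p,1)`-total labelling number is exactly `Δ + p - 1` for almost all graphs whose vertices can be
partitioned into `r` parts which induce members of given hereditary classes with few one vertex
extensions; in particular for almost all graphs with a defective `r`-colouring, almost all
generalised split graphs, and almost all graphs with a partition into `r` disjoint unions of few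
cliques.

The graphs which have a given partition and given induced subgraphs on its parts are the graphs
between two graphs, to which the theorem of the starting file `RandomGraphsExact` applies; the passage to
the whole class is a second moment argument over the partitions, extending the one of helper129 for
partitions into cliques and independent sets.
-/

set_option autoImplicit false

namespace Pool.Agent.Results.MP_b8729f_co.HereditaryParts

/-- `fV`, `fE` is a `(p,1)`-total labelling of `G`: adjacent vertices get different labels, edges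
with a common end get different labels, the labels of a vertex and of an edge at it differ by at
least `p`. -/
def IsLabelling {V : Type} (p : ℕ) (G : SimpleGraph V) (fV : V → ℕ) (fE : Sym2 V → ℕ) : Prop :=
  (∀ u v : V, G.Adj u v → fV u ≠ fV v) ∧
  (∀ u v : V, G.Adj u v → (p : ℤ) ≤ |(fV u : ℤ) - (fE s(u, v) : ℤ)|) ∧
  (∀ u v w : V, G.Adj u v → G.Adj u w → v ≠ w → fE s(u, v) ≠ fE s(u, w))

/-- The `(p,1)`-total labelling number of `G` is `Δ(G) + p - 1`: there is a labelling with labels
`0, ..., l` if and only if `Δ(G) + p - 1 ≤ l`. -/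
def Exact (p : ℕ) {V : Type} [Fintype V] (G : SimpleGraph V) : Prop :=
  ∀ [DecidableRel G.Adj] (l : ℕ),
    (∃ (fV : V → ℕ) (fE : Sym2 V → ℕ), (∀ v : V, fV v ≤ l) ∧ (∀ e ∈ G.edgeSet, fE e ≤ l) ∧
      IsLabelling p G fV fE) ↔ G.maxDegree + p ≤ l + 1

/-- A class of graphs, given by its members `Φ m` on the vertex sets `Fin m`, is closed under
induced subgraphs and isomorphisms. -/
def Hereditary (Φ : (m : ℕ) → Set (SimpleGraph (Fin m))) : Prop :=
  ∀ (m n : ℕ) (φ : Fin m ↪ Fin n) (G : SimpleGraph (Fin n)), G ∈ Φ n → G.comap φ ∈ Φ m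

/-- Every graph on `m` vertices has at most `e m` extensions by one vertex in the class. -/
def FewExt (e : ℕ → ℕ) (Φ : (m : ℕ) → Set (SimpleGraph (Fin m))) : Prop :=
  ∀ (m : ℕ) (H : SimpleGraph (Fin m)),
    {G : SimpleGraph (Fin (m + 1)) | G ∈ Φ (m + 1) ∧ G.comap Fin.castSucc = H}.ncard ≤ e m

/-- The function `e` grows subexponentially. -/
def Subexp (e : ℕ → ℕ) : Prop :=
  ∀ δ : ℝ, 0 < δ → ∀ᶠ m : ℕ in Filter.atTop, (e m : ℝ) ≤ (1 + δ) ^ m

/-- The vertices of `G` can be partitioned into `r` (possibly empty) parts `f v = i`, `i < r`, such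
that the part `i` induces a member of the class `Φ i`. -/
def InParts {n r : ℕ} (Φ : Fin r → (m : ℕ) → Set (SimpleGraph (Fin m)))
    (G : SimpleGraph (Fin n)) : Prop :=
  ∃ f : Fin n → Fin r, ∀ (i : Fin r) (m : ℕ) (φ : Fin m ↪ Fin n), (∀ a, f (φ a) = i) →
    G.comap φ ∈ Φ i m

/-- The vertices of `G` can be partitioned into `r` parts such that every vertex of a part `i ∈ S`
has at most `D` nonneighbours in its part, and every vertex of a part `i ∉ S` has at most `D`
neighbours in its part. -/
def Defective (D : ℕ) {n r : ℕ} (S : Set (Fin r)) (G : SimpleGraph (Fin n)) : Prop :=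
  ∃ f : Fin n → Fin r, ∀ v, {u | u ≠ v ∧ f u = f v ∧ ¬ (G.Adj v u ↔ f v ∈ S)}.ncard ≤ D

/-- The vertices of `G` can be partitioned into `r` parts such that the part `i` induces a disjoint
union of at most `k i` cliques (the cliques `g v = j`, `j < k i`). -/
def CliqueUnions {n r : ℕ} (k : Fin r → ℕ) (G : SimpleGraph (Fin n)) : Prop :=
  ∃ (f : Fin n → Fin r) (g : Fin n → ℕ), (∀ v, g v < k (f v)) ∧
    ∀ u v, u ≠ v → f u = f v → (G.Adj u v ↔ g u = g v)

/-- The vertices of `G` can be partitioned into a clique `A` and a set which induces a disjoint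
union of cliques. A generalised split graph is a graph `G` such that `G` or its complement is
unipolar. -/
def Unipolar {n : ℕ} (G : SimpleGraph (Fin n)) : Prop :=
  ∃ A : Set (Fin n), (∀ a ∈ A, ∀ b ∈ A, a ≠ b → G.Adj a b) ∧
    ∀ a b c, a ∉ A → b ∉ A → c ∉ A → a ≠ c → G.Adj a b → G.Adj b c → G.Adj a c

/-- Let `p ≥ 1`. For every `ε > 0` and every `r ≥ 2`, all but an `ε`-fraction of the graphs on `n` vertices of each of
the following classes have `(p,1)`-total labelling number `Δ + p - 1`, for all large `n`: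

(1) the graphs whose vertices can be partitioned into `r` parts which induce members of hereditary
classes `Φ 0`, ..., `Φ (r - 1)` in which every graph on `m` vertices has at most `e m` extensions by
one vertex, where `e` grows subexponentially (the bound on `n` depends on `e`, `r`, `ε` only);

(2) the graphs whose vertices can be partitioned into `r` parts such that every vertex has at most
`D` neighbours (in the parts of `S`: at most `D` nonneighbours) in its part;

(3) the graphs whose vertices can be partitioned into `r` parts, the part `i` a disjoint union of at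
most `k i` cliques;

(4) the generalised split graphs. -/
theorem result (p : ℕ) (hp : 1 ≤ p) :
    (∀ (e : ℕ → ℕ), Subexp e → ∀ r : ℕ, 2 ≤ r → ∀ ε : ℝ, 0 < ε → ∃ N : ℕ, ∀ n : ℕ, N ≤ n →
      ∀ Φ : Fin r → (m : ℕ) → Set (SimpleGraph (Fin m)),
      (∀ i, Hereditary (Φ i)) → (∀ i m, (Φ i m).Nonempty) → (∀ i, FewExt e (Φ i)) →
      ({G : SimpleGraph (Fin n) | InParts Φ G ∧ ¬ Exact p G}.ncard : ℝ) ≤
        ε * {G : SimpleGraph (Fin n) | InParts Φ G}.ncard) ∧
    (∀ D r : ℕ, 2 ≤ r → ∀ ε : ℝ, 0 < ε → ∃ N : ℕ, ∀ n : ℕ, N ≤ n → ∀ S : Set (Fin r),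
      ({G : SimpleGraph (Fin n) | Defective D S G ∧ ¬ Exact p G}.ncard : ℝ) ≤
        ε * {G : SimpleGraph (Fin n) | Defective D S G}.ncard) ∧
    (∀ r : ℕ, 2 ≤ r → ∀ ε : ℝ, 0 < ε → ∃ N : ℕ, ∀ n : ℕ, N ≤ n → ∀ k : Fin r → ℕ,
      (∀ i, 1 ≤ k i) →
      ({G : SimpleGraph (Fin n) | CliqueUnions k G ∧ ¬ Exact p G}.ncard : ℝ) ≤
        ε * {G : SimpleGraph (Fin n) | CliqueUnions k G}.ncard) ∧
    (∀ ε : ℝ, 0 < ε → ∃ N : ℕ, ∀ n : ℕ, N ≤ n →
      ({G : SimpleGraph (Fin n) | (Unipolar G ∨ Unipolar Gᶜ) ∧ ¬ Exact p G}.ncard : ℝ) ≤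
        ε * {G : SimpleGraph (Fin n) | Unipolar G ∨ Unipolar Gᶜ}.ncard) := by
  have hP : Pool.Agent.Q6.HP.Typical (fun _ G => Exact p G) :=
    fun c ε hc hε => (Pool.Agent.Y393.RS.typical_exact p hp).2.1 c ε hc hε
  refine ⟨fun e he r hr ε hε => ?_, fun D r hr ε hε => ?_, fun r hr ε hε => ?_, fun ε hε => ?_⟩
  · obtain ⟨N, hN⟩ := Pool.Agent.Q6.HP.almost_all (fun _ G => Exact p G) hP e he r hr ε hε
    exact ⟨N, fun n hn Φ h1 h2 h3 => hN n hn Φ h1 h2 h3⟩
  · obtain ⟨N, hN⟩ := Pool.Agent.Q6.HP.defective (fun _ G => Exact p G) hP D r hr ε hε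
    exact ⟨N, fun n hn S => hN n hn S⟩
  · obtain ⟨N, hN⟩ := Pool.Agent.Q6.HP.cliqueUnions (fun _ G => Exact p G) hP r hr ε hε
    exact ⟨N, fun n hn k hk => hN n hn k hk⟩
  · obtain ⟨N, hN⟩ := Pool.Agent.Q6.HP.gen_split (fun _ G => Exact p G) hP ε hε
    exact ⟨N, fun n hn => hN n hn⟩

end Pool.Agent.Results.MP_b8729f_co.HereditaryParts
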